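import Mathlib

/-!
# TASK SM C1: two counting lemmas

`weight`. Let `a 1 < ... < a m` be the positions `< L` with `f > 0` (`m ≥ 2`). Then `2 ∑ f = ∑_{r < m} (f (a r) + f (a (r + 1))) + (f (a m) + f (a 1)) ≤ ∑_{r < m} 2 (a (r + 1) - a r) + 2 (L - (a m - a 1)) = 2 L`.
In Lean: for `N ≤ L` with at least one positive position below `N` let `a` be the first and `b` the last positive position below `N`; then `2 * ∑ i ∈ range N, f i ≤ 2 * (b - a) + f a + f b` by induction on `N`
(step with `f N > 0`: `f b + f N ≤ 2 * (N - b)`); at the end `a < b` and `f a + f b ≤ 2 * (L - (b - a))`.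
`two_sets`: with `a = J.min'`, `b = J.max'`, `a' = J'.min'`, `b' = J'.max'`: `J.card ≤ b - a + 1`, `J'.card ≤ b' - a' + 1`, `b ≤ a' + m`, `b' ≤ a + m`.
-/

namespace LC.Sm

private theorem C1_ind {L : ℕ} (f : ℕ → ℕ)
    (h : ∀ i < L, ∀ j < L, i < j → 0 < f i → 0 < f j → f i + f j ≤ 2 * (j - i) ∧ f i + f j ≤ 2 * (L - (j - i)))
    (N : ℕ) (hN : N ≤ L) : (∀ i < N, f i = 0) ∨ ∃ a b, a ≤ b ∧ b < N ∧ 0 < f a ∧ 0 < f b ∧
      (∀ i < a, f i = 0) ∧ (∀ i, b < i → i < N → f i = 0) ∧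
      2 * ∑ i ∈ Finset.range N, f i ≤ 2 * (b - a) + f a + f b := by
  induction N with
  | zero => exact Or.inl fun i hi => absurd hi (Nat.not_lt_zero i)
  | succ N ih =>
    rcases Nat.eq_zero_or_pos (f N) with h0 | h0
    · rcases ih (by omega) with h1 | ⟨a, b, h1, h2, h3, h4, h5, h6, h7⟩
      · left
        intro i hi
        rcases Nat.lt_succ_iff_lt_or_eq.1 hi with h2 | h2
        · exact h1 i h2
        · rw [h2, h0]
      · right
        refine ⟨a, b, h1, by omega, h3, h4, h5, ?_, ?_⟩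
        · intro i hi1 hi2
          rcases Nat.lt_succ_iff_lt_or_eq.1 hi2 with h8 | h8
          · exact h6 i hi1 h8
          · rw [h8, h0]
        · rw [Finset.sum_range_succ, h0]
          exact h7
    · right
      rcases ih (by omega) with h1 | ⟨a, b, h1, h2, h3, h4, h5, h6, h7⟩
      · refine ⟨N, N, le_rfl, by omega, h0, h0, h1, fun i hi1 hi2 => by omega, ?_⟩
        rw [Finset.sum_range_succ, Finset.sum_eq_zero fun i hi => h1 i (Finset.mem_range.1 hi)]
        omega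
      · refine ⟨a, N, by omega, by omega, h3, h0, h5, fun i hi1 hi2 => by omega, ?_⟩
        rw [Finset.sum_range_succ]
        have h8 := (h b (by omega) N (by omega) h2 h4 h0).1
        omega

theorem weight {L : ℕ} (f : ℕ → ℕ)
    (h : ∀ i < L, ∀ j < L, i < j → 0 < f i → 0 < f j → f i + f j ≤ 2 * (j - i) ∧ f i + f j ≤ 2 * (L - (j - i)))
    (h2 : ∃ i < L, ∃ j < L, i < j ∧ 0 < f i ∧ 0 < f j) : ∑ i ∈ Finset.range L, f i ≤ L := by
  obtain ⟨i, hi, j, hj, hij, hi0, hj0⟩ := h2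
  rcases C1_ind f h L le_rfl with h1 | ⟨a, b, h1, h2, h3, h4, h5, h6, h7⟩
  · have := h1 i hi
    omega
  · have k1 : a ≤ i := by
      by_contra h8
      have := h5 i (by omega)
      omega
    have k2 : j ≤ b := by
      by_contra h8
      have := h6 j (by omega) hj
      omega
    have k3 := (h a (by omega) b h2 (by omega) h3 h4).2
    omega

theorem two_sets {J J' : Finset ℕ} (hJ : J.Nonempty) (hJ' : J'.Nonempty) {m : ℕ}
    (h : ∀ i ∈ J, ∀ j ∈ J', i ≤ j + m ∧ j ≤ i + m) : J.card + J'.card ≤ 2 * m + 2 := by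
  have h1 : J ⊆ Finset.Icc (J.min' hJ) (J.max' hJ) := fun x hx =>
    Finset.mem_Icc.2 ⟨Finset.min'_le J x hx, Finset.le_max' J x hx⟩
  have h2 : J' ⊆ Finset.Icc (J'.min' hJ') (J'.max' hJ') := fun x hx =>
    Finset.mem_Icc.2 ⟨Finset.min'_le J' x hx, Finset.le_max' J' x hx⟩
  have c1 := Finset.card_le_card h1
  have c2 := Finset.card_le_card h2
  rw [Nat.card_Icc] at c1 c2
  have e1 := (h _ (Finset.max'_mem J hJ) _ (Finset.min'_mem J' hJ')).1
  have e2 := (h _ (Finset.min'_mem J hJ) _ (Finset.max'_mem J' hJ')).2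
  have e3 := Finset.min'_le J _ (Finset.max'_mem J hJ)
  have e4 := Finset.min'_le J' _ (Finset.max'_mem J' hJ')
  omega

end LC.Sm
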