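import Pool.Agent.Lib.MP_6bc8af_co.Mg.G034
import Pool.Agent.Lib.MP_6bc8af_co.Mg.G036

/-!
# TASK SM E5: a vertex of `c` outside `W` attached to the component of a full segment; the set `BB`

`BB c W A` is the set of the vertices of `c` in the interior of a gap of `W` which has an end outside `A`.

PROOF.
`Su.attach`: `Kp G c R` contains a vertex `u₀` of `R` (`R ≠ []`), outside `c` (`Kp_out`), so not in `W`; and there is a vertex `z` of `c` not in `W` (otherwise `W = Set.range c` and `W.ncard = L` by `range_ncard`; but `Su.low`: `(p + 1) k ≤ L + (p + 1) p ^ 2`, `w`: `L ≤ k + t`, and `big`: `p k > t + (p + 1) p ^ 2`, contradiction).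
`con` gives a walk of `G.induce {v | v ∉ W}` from `u₀` to `z`. `z ∉ Kp G c R`. By induction on the walk there is an edge `v, y` of `G` with `v ∈ Kp G c R`, `y ∉ Kp G c R`, `y ∉ W`. If `y` were not on `c`, then `v, y` would be adjacent in `Dl G (Set.range c)` (`v` is outside `c`), so `y ∈ Kp G c R`
(`Kp_mono`). So `y` is on `c`.
`bb_card`: for every `w ∈ W \ A` choose a position `n` of `w` on `c` with `L ≤ n`; the elements of `BB c W A` in a gap with the end `w` are among the `2 p` vertices `c (n + j)`, `c (n - j)`, `1 ≤ j ≤ p` (`p ≤ L` is not needed: for a gap `(i, g)` with `c (i + g) = w`: `c (i + b) = c (n - (g - b))`, since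
`i + b ≡ n - (g - b)` mod `L`; `Cyc.eq_iff`). So `BB` is contained in a union over `W \ A` (finite) of sets with at most `2 p` elements.
-/

namespace LC.Sm

universe u

variable {V : Type u}

/-- the vertices in the interior of a gap of `W` with an end outside `A` -/
def BB (c : ℕ → V) (W A : Set V) : Set V :=
  {y | ∃ a g b, Gap c W a g ∧ 0 < b ∧ b < g ∧ y = c (a + b) ∧ (c a ∉ A ∨ c (a + g) ∉ A)}

theorem Su.attach [Finite V] {G : SimpleGraph V} {k t p L : ℕ} {c d : ℕ → V} {W : Set V} (h : Su G k t p L c d W)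
    {R : List V} (hR : R ≠ []) (ho : Out c R) : ∃ y v, y ∈ Set.range c ∧ y ∉ W ∧ v ∈ Kp G c R ∧ G.Adj y v := by
  classical
  have hWc : ∀ v ∈ W, v ∈ Set.range c := by
    intro v hv
    rw [h.hW] at hv
    exact hv.1
  obtain ⟨u0, hu0⟩ := List.exists_mem_of_ne_nil R hR
  have hu1 : u0 ∉ Set.range c := ho u0 hu0
  have hu2 : u0 ∉ W := fun hc => hu1 (hWc u0 hc)
  have hu3 : u0 ∈ Kp G c R := ⟨u0, hu0, SimpleGraph.Reachable.refl _⟩
  -- a vertex of the cycle outside `W`
  have hz : ∃ z ∈ Set.range c, z ∉ W := by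
    by_contra hcon
    push Not at hcon
    have h1 : W = Set.range c := Set.Subset.antisymm hWc hcon
    have h2 : W.ncard = L := by rw [h1, range_ncard h.hc]
    have h3 := h.low
    have h4 := h.w
    have h5 := h.big
    have h6 := h.p1
    rw [h2] at h4
    have h7 : (p + 1) * p ^ 2 ≤ (p + 1) ^ 6 := by
      calc (p + 1) * p ^ 2 ≤ (p + 1) * (p + 1) ^ 2 :=
            Nat.mul_le_mul_left _ (Nat.pow_le_pow_left (by omega) _)
        _ = (p + 1) ^ 3 := by ring
        _ ≤ (p + 1) ^ 6 := Nat.pow_le_pow_right (by omega) (by norm_num)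
    have h8 : 1 ≤ (p + 1) ^ 6 := Nat.one_le_pow _ _ (by omega)
    have h9 : k ≤ p * k := Nat.le_mul_of_pos_left k h6
    nlinarith
  obtain ⟨z, hz1, hz2⟩ := hz
  have hz3 : z ∉ Kp G c R := fun hc => Kp_out ho hc hz1
  obtain ⟨q⟩ := h.con ⟨u0, hu2⟩ ⟨z, hz2⟩
  obtain ⟨e, _, he1, he2⟩ := q.exists_boundary_dart {v | v.1 ∈ Kp G c R} hu3 hz3
  have hadj : G.Adj e.fst.1 e.snd.1 := e.adj
  have he1' : e.fst.1 ∈ Kp G c R := he1
  have he2' : e.snd.1 ∉ Kp G c R := he2
  refine ⟨e.snd.1, e.fst.1, ?_, e.snd.2, he1', hadj.symm⟩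
  by_contra hcon
  apply he2'
  refine Kp_mono he1' (SimpleGraph.Adj.reachable ?_)
  exact ⟨hadj, Kp_out ho he1', hcon⟩

theorem bb_card [Finite V] {G : SimpleGraph V} {L p : ℕ} {c : ℕ → V} (hc : Cyc G L c) {W A : Set V}
    (hg : ∀ i g, Gap c W i g → g ≤ p + 1) (hp : p ≤ L) : (BB c W A).ncard ≤ 2 * (W \ A).ncard * p := by
  classical
  have hN : ∀ w : V, ∃ n : ℕ, w ∈ Set.range c → L ≤ n ∧ c n = w := by
    intro w
    by_cases hw : w ∈ Set.range c
    · obtain ⟨i, h1, _, h3⟩ := hc.exists_lt hw L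
      exact ⟨i, fun _ => ⟨h1, h3⟩⟩
    · exact ⟨0, fun h => absurd h hw⟩
  choose N hN using hN
  have hfin : (W \ A).Finite := Set.toFinite _
  set S : Finset V := hfin.toFinset with hS
  set F : V → Finset V := fun w => (Finset.Icc 1 p).image (fun j => c (N w + j)) ∪
    (Finset.Icc 1 p).image (fun j => c (N w - j)) with hF
  have hFc : ∀ w ∈ S, (F w).card ≤ 2 * p := by
    intro w _
    calc (F w).card ≤ ((Finset.Icc 1 p).image (fun j => c (N w + j))).card +
          ((Finset.Icc 1 p).image (fun j => c (N w - j))).card := Finset.card_union_le _ _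
      _ ≤ (Finset.Icc 1 p).card + (Finset.Icc 1 p).card := add_le_add Finset.card_image_le Finset.card_image_le
      _ = 2 * p := by rw [Nat.card_Icc]; omega
  have hsub : BB c W A ⊆ ((S.biUnion F : Finset V) : Set V) := by
    rintro y ⟨a, g, b, hgap, hb0, hbg, rfl, hor⟩
    have hgp := hg a g hgap
    obtain ⟨g1, g2, g3, _⟩ := hgap
    rw [Finset.mem_coe, Finset.mem_biUnion]
    rcases hor with ha | ha
    · refine ⟨c a, ?_, ?_⟩
      · rw [hS, Set.Finite.mem_toFinset]
        exact ⟨g1, ha⟩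
      · obtain ⟨n1, n2⟩ := hN (c a) ⟨a, rfl⟩
        rw [hF]
        refine Finset.mem_union_left _ (Finset.mem_image.2 ⟨b, Finset.mem_Icc.2 ⟨hb0, by omega⟩, ?_⟩)
        rw [hc.eq_iff] at n2 ⊢
        exact Nat.ModEq.add_right b n2
    · refine ⟨c (a + g), ?_, ?_⟩
      · rw [hS, Set.Finite.mem_toFinset]
        exact ⟨g3, ha⟩
      · obtain ⟨n1, n2⟩ := hN (c (a + g)) ⟨a + g, rfl⟩
        rw [hF]
        refine Finset.mem_union_right _ (Finset.mem_image.2 ⟨g - b, Finset.mem_Icc.2 ⟨by omega, by omega⟩, ?_⟩)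
        rw [hc.eq_iff] at n2 ⊢
        have e1 : N (c (a + g)) - (g - b) + (g - b) = N (c (a + g)) := by omega
        have e2 : a + b + (g - b) = a + g := by omega
        have n3 : N (c (a + g)) - (g - b) + (g - b) ≡ a + b + (g - b) [MOD L] := by
          rw [e1, e2]
          exact n2
        exact Nat.ModEq.add_right_cancel' (g - b) n3
  calc (BB c W A).ncard ≤ ((S.biUnion F : Finset V) : Set V).ncard := Set.ncard_le_ncard hsub (Finset.finite_toSet _)
    _ = (S.biUnion F).card := Set.ncard_coe_finset _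
    _ ≤ S.card * (2 * p) := Finset.card_biUnion_le_card_mul _ _ _ hFc
    _ = 2 * (W \ A).ncard * p := by
        rw [Set.ncard_eq_toFinset_card (W \ A) hfin]
        ring

end LC.Sm
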