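import Pool.Agent.Lib.MP_6bc8af_co.Mg.G037

/-!
# MP_6bc8af_co, campaign SM, F5: final form
-/

namespace LC.Sm

open Classical

universe u

theorem support_ncard {V : Type u} {G : SimpleGraph V} {a : V} {w : G.Walk a a} (hw : w.IsCycle) :
    {z | z ∈ w.support}.ncard = w.length := by
  obtain ⟨c, hc, hr⟩ := cyc_of_walk w hw
  rw [← hr]
  exact range_ncard hc

/-- Two longest cycles share at least `k` vertices. -/
theorem smith {V : Type u} [Fintype V] {G : SimpleGraph V} {k t : ℕ} (hG : IsKConn G k) (hk : 2 ≤ k)
    {a b : V} {c : G.Walk a a} {d : G.Walk b b} (hc : IsLongest c) (hd : IsLongest d)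
    (big : 30 * 15879600 ^ 6 * (t + 1) * c.length ^ 6 ≤ k ^ 7) : k ≤ (common c d).ncard := by
  by_cases hn : G.IsHamiltonian
  · have hcard : Fintype.card V ≠ 1 := by
      have := hG.1
      omega
    obtain ⟨v, w, hw⟩ := hn hcard
    have h1 : w.length = Fintype.card V := hw.length_eq
    have h2 := hc.2 v w hw.isCycle
    have h3 := hd.2 v w hw.isCycle
    have full : ∀ {x : V} {z : G.Walk x x}, z.IsCycle → w.length ≤ z.length → ∀ y, y ∈ z.support := by
      intro x z hz hle y
      have h4 := support_ncard hz
      have h5 : {y | y ∈ z.support} = Set.univ := by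
        apply Set.eq_of_subset_of_ncard_le (Set.subset_univ _)
        rw [Set.ncard_univ, Nat.card_eq_fintype_card, h4]
        omega
      have h6 : y ∈ {y | y ∈ z.support} := by
        rw [h5]
        exact Set.mem_univ y
      exact h6
    have h7 : common c d = Set.univ := by
      apply Set.eq_univ_of_forall
      intro y
      exact ⟨full hc.1 h2 y, full hd.1 h3 y⟩
    rw [h7, Set.ncard_univ, Nat.card_eq_fintype_card]
    exact hG.1.le
  · by_cases con : IsArticulation G (common c d)
    · by_contra hlt
      push Not at hlt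
      apply con
      have hfin : (common c d).Finite := Set.toFinite _
      have h1 := hG.2 hfin.toFinset (by
        rw [← Set.ncard_eq_toFinset_card _ hfin]
        exact hlt)
      have h2 : {v | v ∉ hfin.toFinset} = {v | v ∉ common c d} := by
        ext v
        simp
      rw [h2] at h1
      exact h1.preconnected
    · have := small_circ hG hk hn hc hd big con
      omega

theorem dense_smith :
    (∀ (k t L : ℕ) (V : Type) [Fintype V] (G : SimpleGraph V), 2 ≤ k → IsKConn G k →
      (∀ (v : V) (w : G.Walk v v), w.IsCycle → w.length ≤ L) →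
      30 * 15879600 ^ 6 * (t + 1) * L ^ 6 ≤ k ^ 7 →
        (¬ G.IsHamiltonian → PropA G (k + t)) ∧
        ∀ (a b : V) (c : G.Walk a a) (d : G.Walk b b), IsLongest c → IsLongest d →
          k ≤ (common c d).ncard) ∧
    (∀ (k t p : ℕ) (V : Type) [Fintype V] (G : SimpleGraph V), (∀ v, k ≤ (G.neighborSet v).ncard) →
      ¬ G.IsHamiltonian → ∀ (a b : V) (c : G.Walk a a) (d : G.Walk b b), IsLongest c → IsLongest d →
        (∀ (x y : V) (P : G.Walk x y), P.IsPath → (∀ v ∈ P.support, v ∉ c.support) → P.length < p) →
        (∀ (x y : V) (P : G.Walk x y), P.IsPath → (∀ v ∈ P.support, v ∉ d.support) → P.length < p) →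
        30 * (p + 1) ^ 6 * (t + 1) ≤ k → (common c d).ncard ≤ k + t → IsArticulation G (common c d)) := by
  constructor
  · intro k t L V _ G hk hG hL big
    have big' : ∀ {a : V} {c : G.Walk a a}, c.IsCycle → 30 * 15879600 ^ 6 * (t + 1) * c.length ^ 6 ≤ k ^ 7 := by
      intro a c hc
      exact le_trans (Nat.mul_le_mul_left _ (Nat.pow_le_pow_left (hL a c hc) 6)) big
    refine ⟨fun hn a b c d hc hd _ hle => ?_, fun a b c d hc hd => smith hG hk hc hd (big' hc.1)⟩
    by_contra con
    have := small_circ hG hk hn hc hd (big' hc.1) con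
    omega
  · intro k t p V _ G deg hn a b c d hc hd pc pd big hle
    by_contra con
    have key : ∀ {x : V} {z : G.Walk x x}, (∀ (x y : V) (P : G.Walk x y), P.IsPath →
        (∀ v ∈ P.support, v ∉ z.support) → P.length < p) → ∀ l, PL G l → (∀ v ∈ l, v ∉ z.support) → l.length ≤ p := by
      intro x z hz l hl ho
      have h1 : l ≠ [] := hl.1
      obtain ⟨P, hP1⟩ : ∃ P : G.Walk (l.head h1) (l.getLast h1), P.support = l :=
        ⟨SimpleGraph.Walk.ofSupport l h1 hl.2.2, SimpleGraph.Walk.support_ofSupport h1 hl.2.2⟩
      have h2 := hz _ _ P ((SimpleGraph.Walk.isPath_def _).2 (by rw [hP1]; exact hl.2.1)) (by rw [hP1]; exact ho)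
      have h3 := P.length_support
      rw [hP1] at h3
      omega
    have := core_walk hn deg hc hd (key pc) (key pd) con big
    omega

end LC.Sm
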